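import Mathlib

set_option autoImplicit false
open Set Filter Topology

namespace Pool.Agent.Results.MP_e3da0c_gt.Ultra

universe u

/-- One-point Lindelöfication of the discrete set `Γ`; `none` is the point at infinity. -/
def L (Γ : Type u) : Type u := Option Γ
instance (Γ : Type u) : TopologicalSpace (L Γ) where
  IsOpen U := none ∈ U → Uᶜ.Countable
  isOpen_univ _ := by simp
  isOpen_inter _ _ h k q := by rw [compl_inter]; exact (h q.1).union (k q.2)
  isOpen_sUnion _ h := fun ⟨U, u, q⟩ => (h U u q).mono (compl_subset_compl.2 (subset_sUnion_of_mem u))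

def PrimarilyLindelof (T : Type) [TopologicalSpace T] : Prop :=
  ∃ (Γ : Type) (F : Set (ℕ → L Γ)) (f : F → T), IsClosed F ∧ Continuous f ∧ Function.Surjective f

/-- Countable families of nonempty closed sets. -/
def Adm {T : Type} [TopologicalSpace T] (𝒜 : Set (Set T)) : Prop := 𝒜.Countable ∧ ∀ F ∈ 𝒜, F.Nonempty ∧ IsClosed F

def MonoSokolov (T : Type) [TopologicalSpace T] : Prop :=
  ∃ (r : Set (Set T) → T → T) (N : Set (Set T) → Set (Set T)),
    (∀ 𝒜, Adm 𝒜 → Continuous (r 𝒜) ∧ (∀ x, r 𝒜 (r 𝒜 x) = r 𝒜 x) ∧ (∀ F ∈ 𝒜, r 𝒜 '' F ⊆ F) ∧ (N 𝒜).Countable ∧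
      ∀ U, IsOpen U → ∀ x ∈ U ∩ range (r 𝒜), ∃ S ∈ N 𝒜, x ∈ S ∧ S ⊆ U) ∧
    (∀ 𝒜 ℬ, Adm 𝒜 → Adm ℬ → 𝒜 ⊆ ℬ → N 𝒜 ⊆ N ℬ) ∧
    ∀ 𝒜 : ℕ → Set (Set T), (∀ n, Adm (𝒜 n)) → Monotone 𝒜 → N (⋃ n, 𝒜 n) = ⋃ n, N (𝒜 n)

def RQuotient {X : Type u} {Y : Type} [TopologicalSpace X] [TopologicalSpace Y] (f : X → Y) : Prop :=
  Continuous f ∧ Function.Surjective f ∧ ∀ g : Y → ℝ, Continuous (g ∘ f) → Continuous g

abbrev T : Type := {u : Ultrafilter ℕ // u = hyperfilter ℕ ∨ ∃ n, u = pure n}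
noncomputable def p : Option ℕ → T
  | none => ⟨hyperfilter ℕ, .inl rfl⟩
  | some n => ⟨pure n, .inr ⟨n, rfl⟩⟩
lemma ps : Function.Surjective p := by
  rintro ⟨_, rfl | ⟨n, rfl⟩⟩
  exacts [⟨none, rfl⟩, ⟨some n, rfl⟩]
lemma op (s : Set ℕ) : IsOpen {x : T | s ∈ x.1} := (ultrafilter_isOpen_basic s).preimage continuous_subtype_val

theorem result : ∃ (T : Type) (_ : TopologicalSpace T), T35Space T ∧ PrimarilyLindelof T ∧ MonoSokolov T ∧
    ∀ (Γ : Type u) (F : Set (ℕ → L Γ)) (f : F → T), ¬ RQuotient f := by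
  classical
  have : Countable T := ps.countable
  refine ⟨T, inferInstance, inferInstance, ⟨ℕ, univ, fun y => p (y.1 0), isClosed_univ, Continuous.comp (f := fun y :
    (univ : Set (ℕ → L ℕ)) => y.1 0) (g := fun o : L ℕ => p o) ⟨fun _ _ _ => to_countable (α := Option ℕ) _⟩
      ((continuous_apply 0).comp continuous_subtype_val),
      fun x => (ps x).elim fun o h => ⟨⟨fun _ => o, trivial⟩, h⟩⟩, ⟨fun _ => id, fun _ => range singleton,
        fun _ _ => ⟨continuous_id, fun _ => rfl, by simp, countable_range _, fun U _ x hx => ⟨_, ⟨x, rfl⟩, rfl, by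
          simpa using hx.1⟩⟩, fun _ _ _ _ _ => subset_rfl, fun _ _ _ => (iUnion_const _).symm⟩, ?_⟩
  rintro Γ F f ⟨h1, -, h3⟩
  have cl : IsClosed {x : T | x = p none} := isClosed_singleton
  have o : IsOpen (f ⁻¹' {x | x = p none}) := isOpen_iff_mem_nhds.2 fun x hx => by
    let U : ℕ → Set (L Γ) → Set F := fun m C => {y | ∀ i < m, (x.1 i = none → y.1 i ∉ C \ {none}) ∧ (x.1 i ≠ none → y.1 i = x.1 i)}
    have hU : ∀ m C, C.Countable → U m C ∈ 𝓝 x := fun m C hC => (eventually_all_finite (finite_Iio m)).2 fun i _ =>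
      (((continuous_apply i).comp continuous_subtype_val).tendsto x).eventually (p := fun z =>
        (x.1 i = none → z ∉ C \ {none}) ∧ (x.1 i ≠ none → z = x.1 i)) (IsOpen.mem_nhds (fun q => hC.mono fun z hz => by
          by_cases e : x.1 i = none
          · exact by_contra fun w => hz ⟨fun _ r => w r.1, fun r => (r e).elim⟩
          · exact (e (q.2 e).symm).elim) ⟨fun e k => k.2 e, fun _ => rfl⟩)
    have : ∀ q : ℕ × ℕ, ∃ C : Set (L Γ), C.Countable ∧ ∀ D : Set (L Γ), D.Countable → (∃ y ∈ U q.1 C, f y = p (some q.2)) →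
        ∃ y ∈ U q.1 D, f y = p (some q.2) := fun q => by
      by_cases k : ∀ D : Set (L Γ), D.Countable → ∃ y ∈ U q.1 D, f y = p (some q.2)
      · exact ⟨∅, countable_empty, fun D hD _ => k D hD⟩
      · push Not at k
        obtain ⟨D, d1, d2⟩ := k
        exact ⟨D, d1, fun _ _ ⟨y, y1, y2⟩ => (d2 y y1 y2).elim⟩
    choose C c1 c2 using this
    by_contra k
    have : ∀ m, ∃ n > m, ∃ y ∈ U m (⋃ q, C q), f y = p (some n) := fun m => by
      obtain ⟨y, y1, y2, y3⟩ := (not_eventually.1 k).and_eventually (Eventually.and (hU m _ (countable_iUnion c1))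
        (h1.continuousAt.eventually ((op (Ioi m)).mem_nhds (by
          rw [show f x = _ from hx]; exact hyperfilter_le_cofinite (by simpa using finite_Iic m))))) |>.exists
      obtain ⟨_ | n, e⟩ := ps (f y)
      · exact (y1 e.symm).elim
      · rw [← e] at y3; exact ⟨n, y3, y, y2, e.symm⟩
    choose n n1 n2 using this
    obtain ⟨s, s1, s2⟩ : ∃ s ∈ hyperfilter ℕ, ∀ M, ∃ m ≥ M, n m ∉ s := by
      obtain ⟨φ, h1, h2⟩ := strictMono_subseq_of_id_le (u := n) fun m => (n1 m).le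
      rcases (hyperfilter ℕ).mem_or_compl_mem (range fun j => n (φ (2 * j))) with h | h
      · exact ⟨_, h, fun M => ⟨φ (2 * M + 1), le_trans (by omega) (h1.le_apply (x := 2 * M + 1)), fun ⟨j, e⟩ => by
          have := h2.injective e; omega⟩⟩
      · exact ⟨_, h, fun M => ⟨φ (2 * M), le_trans (by omega) (h1.le_apply (x := 2 * M)), fun q => q ⟨M, rfl⟩⟩⟩
    obtain ⟨V, v1, v2⟩ := (mem_nhds_subtype _ _ _).1 (h1.continuousAt.eventually ((op s).mem_nhds (by rwa [show f x = _ from hx])))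
    rw [nhds_pi, mem_pi'] at v1
    obtain ⟨I, t, t1, t2⟩ := v1
    choose W w1 w2 w3 using fun i => mem_nhds_iff.1 (t1 i)
    obtain ⟨m, m1, m2⟩ := s2 (I.sup id + 1)
    obtain ⟨y, y1, y2⟩ := c2 (m, n m) (⋃ i, if x.1 i = none then (W i)ᶜ else ∅) (countable_iUnion fun i => by
      split_ifs with e; exacts [w2 i (e ▸ w3 i), countable_empty]) ((n2 m).imp fun y q => ⟨fun i hi => ⟨fun e r =>
        (q.1 i hi).1 e ⟨mem_iUnion.2 ⟨_, r.1⟩, r.2⟩, (q.1 i hi).2⟩, q.2⟩)
    have := v2 (a := y) (t2 fun i hi => w1 i (by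
      have q := y1 i (Nat.lt_succ_of_le (Finset.le_sup (f := id) hi) |>.trans_le m1)
      by_cases e : x.1 i = none
      · by_contra r
        exact q.1 e ⟨mem_iUnion.2 ⟨i, by rwa [if_pos e]⟩, fun z => r (by rw [show y.1 i = _ from z, ← e]; exact w3 i)⟩
      · rw [q.2 e]; exact w3 i))
    simp only [mem_setOf_eq, y2] at this
    exact m2 this
  have := (isOpen_Ioi (a := (0 : ℝ))).preimage (h3 (indicator {x | x = p none} 1)
    (IsClopen.continuous_indicator ⟨cl.preimage h1, o⟩ continuous_const))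
  obtain ⟨V, v1, v2⟩ := isOpen_induced_iff.1 this
  obtain ⟨_, ⟨s, rfl⟩, s1, s2⟩ := ultrafilterBasis_is_basis.exists_subset_of_mem_open
    (show hyperfilter ℕ ∈ V from (Set.ext_iff.1 v2 (p none)).2 (by simp)) v1
  obtain ⟨n, hn⟩ := Ultrafilter.nonempty_of_mem s1
  have := (Set.ext_iff.1 v2 (p (some n))).1 (s2 hn)
  have e : p (some n) = p none := by by_contra e; simp [e] at this
  have e : pure n = hyperfilter ℕ := congrArg Subtype.val e
  exact (finite_singleton n).notMem_hyperfilter (by rw [← e]; rfl)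

end Pool.Agent.Results.MP_e3da0c_gt.Ultra
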